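import Pool.Agent.MBX.Stmts

/-!
# MBX (MP_8cfbae_mp), row SDX: differentiation in space
-/

set_option autoImplicit false

open MeasureTheory Complex

namespace Pool.Agent.MBX.H19

open Pool.Agent.Helper49_Pauli

variable {ι : Type} [Fintype ι] [DecidableEq ι]

theorem CS.add' {f g : X3 → ℂ} (hf : CS f) (hg : CS g) : CS fun x => f x + g x :=
  ⟨hf.1.add hg.1, hf.2.add hg.2⟩

theorem CS.mulc {f : X3 → ℂ} (hf : CS f) (c : ℂ) : CS fun x => c * f x :=
  ⟨contDiff_const.mul hf.1, hf.2.mul_left⟩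

theorem CS.zero' : CS fun _ : X3 => (0 : ℂ) := ⟨contDiff_const, HasCompactSupport.zero⟩

theorem CS.dif {f : X3 → ℂ} (hf : CS f) (x : X3) : DifferentiableAt ℝ f x :=
  hf.1.differentiable (by simp) x

theorem CS.der {f : X3 → ℂ} (hf : CS f) (j : Fin 3) :
    CS fun x => fderiv ℝ f x (Pi.single j 1) := by
  refine ⟨(hf.1.fderiv_right (m := (⊤ : ℕ∞)) (by simp)).clm_apply contDiff_const, ?_⟩
  exact (hf.2.fderiv (𝕜 := ℝ)).comp_left (g := fun L : X3 →L[ℝ] ℂ => L (Pi.single j 1)) rfl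

theorem ss_cs (q : (ι → ℝ) → X3 → ℂ) (hq : q ∈ SS ι) : ∀ y, CS (q y) := by
  refine Submodule.span_induction (p := fun q _ => ∀ y, CS (q y)) ?_ ?_ ?_ ?_ hq
  · rintro _ ⟨P, f, hf, rfl⟩ y
    exact CS.mulc hf _
  · exact fun y => CS.zero'
  · exact fun a b _ _ ha hb y => CS.add' (ha y) (hb y)
  · exact fun c a _ ha y => CS.mulc (ha y) c

theorem dX_add {q r : (ι → ℝ) → X3 → ℂ} (hq : q ∈ SS ι) (hr : r ∈ SS ι) (j : Fin 3) :
    dX j (q + r) = dX j q + dX j r := by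
  funext y x
  have h := (CS.dif (ss_cs q hq y) x).hasFDerivAt.add (CS.dif (ss_cs r hr y) x).hasFDerivAt
  have e : fderiv ℝ ((q + r) y) x = fderiv ℝ (q y) x + fderiv ℝ (r y) x := h.fderiv
  change fderiv ℝ ((q + r) y) x (Pi.single j 1) = _
  rw [e]
  rfl

theorem dX_smul {q : (ι → ℝ) → X3 → ℂ} (hq : q ∈ SS ι) (c : ℂ) (j : Fin 3) :
    dX j (c • q) = c • dX j q := by
  funext y x
  have h := (CS.dif (ss_cs q hq y) x).hasFDerivAt.const_smul c
  have e : fderiv ℝ ((c • q) y) x = c • fderiv ℝ (q y) x := h.fderiv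
  change fderiv ℝ ((c • q) y) x (Pi.single j 1) = _
  rw [e]
  rfl

theorem dX_mulc {f : X3 → ℂ} (hf : CS f) (c : ℂ) (j : Fin 3) (x : X3) :
    fderiv ℝ (fun x => c * f x) x (Pi.single j 1) = c * fderiv ℝ f x (Pi.single j 1) := by
  have h := (CS.dif hf x).hasFDerivAt.const_smul c
  have e : fderiv ℝ (fun x => c * f x) x = c • fderiv ℝ f x := h.fderiv
  rw [e]
  rfl

theorem dX_gen (P : MvPolynomial ι ℂ) {f : X3 → ℂ} (hf : CS f) (j : Fin 3) :
    dX j (Gen P f) = Gen P fun x => fderiv ℝ f x (Pi.single j 1) := by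
  funext y x
  exact dX_mulc hf _ j x

theorem dY_gen (P : MvPolynomial ι ℂ) (f : X3 → ℂ) (i : ι) :
    ∃ p : (ι → ℝ) → ℂ, ∀ f : X3 → ℂ, dY i (Gen P f) = fun y x => p y * f x := by
  refine ⟨fun y => deriv (fun t : ℝ =>
    MvPolynomial.eval (fun i' => ((Function.update y i t i' : ℝ) : ℂ)) P) (y i), fun f => ?_⟩
  funext y x
  exact deriv_mul_const_field _

theorem sdx (hS : SdyStmt) : SdxStmt := by
  intro ι _ _ q hq
  refine ⟨ss_cs q hq, ?_⟩
  refine Submodule.span_induction (p := fun q _ => (∀ j, dX j q ∈ SS ι) ∧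
    ∀ (i : ι) (j : Fin 3), dY i (dX j q) = dX j (dY i q)) ?_ ?_ ?_ ?_ hq
  · rintro _ ⟨P, f, hf, rfl⟩
    refine ⟨fun j => ?_, fun i j => ?_⟩
    · rw [dX_gen P hf]
      exact Submodule.subset_span ⟨P, _, CS.der hf j, rfl⟩
    · obtain ⟨p, hp⟩ := dY_gen P f i
      rw [dX_gen P hf, hp, hp]
      funext y x
      exact (dX_mulc hf _ j x).symm
  · have e : ∀ j, dX j (0 : (ι → ℝ) → X3 → ℂ) = 0 := by
      intro j
      funext y x
      have : fderiv ℝ ((0 : (ι → ℝ) → X3 → ℂ) y) x = 0 :=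
        (hasFDerivAt_const (0 : ℂ) x).fderiv
      change fderiv ℝ ((0 : (ι → ℝ) → X3 → ℂ) y) x (Pi.single j 1) = _
      rw [this]
      rfl
    have e' : ∀ i, dY i (0 : (ι → ℝ) → X3 → ℂ) = 0 := by
      intro i
      funext y x
      exact deriv_const _ _
    refine ⟨fun j => ?_, fun i j => ?_⟩
    · rw [e]
      exact Submodule.zero_mem _
    · rw [e, e', e]
  · intro a b ha hb h1 h2
    refine ⟨fun j => ?_, fun i j => ?_⟩
    · rw [dX_add ha hb]
      exact Submodule.add_mem _ (h1.1 j) (h2.1 j)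
    · have k : ∀ a b : (ι → ℝ) → X3 → ℂ, a ∈ SS ι → b ∈ SS ι → dY i (a + b) = dY i a + dY i b := by
        intro a b ha hb
        funext y x
        exact (((hS ι a ha i).2 y x).add ((hS ι b hb i).2 y x)).deriv
      rw [dX_add ha hb, k _ _ (h1.1 j) (h2.1 j), k a b ha hb,
        dX_add (hS ι a ha i).1 (hS ι b hb i).1, h1.2, h2.2]
  · intro c a ha h1
    refine ⟨fun j => ?_, fun i j => ?_⟩
    · rw [dX_smul ha]
      exact Submodule.smul_mem _ _ (h1.1 j)
    · have k : ∀ a : (ι → ℝ) → X3 → ℂ, a ∈ SS ι → dY i (c • a) = c • dY i a := by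
        intro a ha
        funext y x
        exact (((hS ι a ha i).2 y x).const_smul c).deriv
      rw [dX_smul ha, k _ (h1.1 j), k a ha, dX_smul (hS ι a ha i).1, h1.2]

end Pool.Agent.MBX.H19
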