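import Pool.Agent.MBX.Stmts
import Pool.Agent.Helper19_Pauli2.Upper4

/-!
# MBX (MP_8cfbae_mp), row UPP: the upper bound
-/

set_option autoImplicit false

open MeasureTheory Complex

namespace Pool.Agent.MBX.H19

open Pool.Agent.Helper49_Pauli

theorem upp (hC : CntStmt) : UppStmt := by
  intro α hα
  obtain ⟨ρ, hρ, h⟩ := Pool.Agent.Helper19_Pauli2.upper_gen hα
  refine ⟨256 * ρ * (10 + 162 * α + 432 * α ^ 2), 12, by positivity,
    fun cut L hcut hL hl P D _ _ F => ?_⟩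
  obtain ⟨l, hl'⟩ : ∃ l, l = L * cut := ⟨_, rfl⟩
  have hπ := Real.pi_gt_three
  have l1 : 1 ≤ l := by rw [hl']; linarith
  have l0 : 0 < l := by linarith
  have hcd := (hC cut L hL hl).2.1
  rw [← hl'] at hcd ⊢
  obtain ⟨m, hm⟩ : ∃ m, m = 2 * l ^ 3 := ⟨_, rfl⟩
  have m1 : 1 ≤ m := by
    have := one_le_pow₀ (n := 3) l1
    rw [hm]
    linarith
  have m0 : 0 < m := by linarith
  rw [← hm] at hcd
  obtain ⟨psi, p1, p2, p3⟩ := h cut L m hL hcut hl m0 hcd P D F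
  refine ⟨⟨psi, p1, p2.ne'⟩, ?_⟩
  refine selfEnergy_le Pool.Agent.Helper49_Pauli.symm hL P hα.le F p1 p2 (p3.trans ?_)
  have q1 : m ≤ m ^ 4 := by simpa using pow_le_pow_right₀ m1 (show 1 ≤ 4 by norm_num)
  have q2 : m ^ 2 ≤ m ^ 4 := pow_le_pow_right₀ m1 (by norm_num)
  have q3 : m ^ 3 ≤ m ^ 4 := pow_le_pow_right₀ m1 (by norm_num)
  have q0 : 1 ≤ m ^ 4 := one_le_pow₀ m1
  have e : 8 + 72 * α * m ^ 2 + 432 * α ^ 2 * m ^ 4 + 36 * α * m + 2 * m + 54 * α * m ^ 3 ≤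
      (10 + 162 * α + 432 * α ^ 2) * m ^ 4 := by
    have a2 := mul_le_mul_of_nonneg_left q2 hα.le
    have a1 := mul_le_mul_of_nonneg_left q1 hα.le
    have a3 := mul_le_mul_of_nonneg_left q3 hα.le
    nlinarith
  have e2 : m ^ 4 = 16 * l ^ 12 := by
    rw [hm]
    ring
  have hc : 0 < cut ^ ((4 / 3 : ℝ)) := Real.rpow_pos_of_pos (by linarith) _
  calc 16 * (ρ * (8 + 72 * α * m ^ 2 + 432 * α ^ 2 * m ^ 4 + 36 * α * m + 2 * m +
          54 * α * m ^ 3)) * cut ^ ((4 / 3 : ℝ)) * normSq psi ≤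
        16 * (ρ * ((10 + 162 * α + 432 * α ^ 2) * m ^ 4)) * cut ^ ((4 / 3 : ℝ)) *
          normSq psi := by gcongr
    _ = 256 * ρ * (10 + 162 * α + 432 * α ^ 2) * l ^ 12 * cut ^ ((4 / 3 : ℝ)) * normSq psi := by
        rw [e2]
        ring

end Pool.Agent.MBX.H19
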