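import Pool.Agent.MBX.Stmts
import Pool.Agent.Helper19_Pauli2.XSpace

/-!
# MBX (MP_8cfbae_mp), rows XIB and CCC: covariant derivatives
-/

set_option autoImplicit false

open MeasureTheory Complex

namespace Pool.Agent.MBX.H19

open Pool.Agent.Helper49_Pauli Pool.Agent.Helper19_Pauli2

/-- a test function -/
noncomputable def tf {f : X3 → ℂ} (hf : CS f) : NT := NT.mk f hf.1 hf.2

theorem pj_cv (V : X3 → X3) (hV : ∀ j, ContDiff ℝ (⊤ : ℕ∞) fun x => V x j) {f : X3 → ℂ}
    (hf : CS f) (j : Fin 3) (x : X3) :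
    (pj (fun j x => V x j) hV j (tf hf)).fn x = cv V j f x := rfl

theorem inner_tf (f g : NT) :
    (inner ℂ f g : ℂ) = ∫ x, (starRingEnd ℂ) (f.fn x) * g.fn x := by
  rw [inner_def']
  refine integral_congr_ae (Filter.Eventually.of_forall fun x => ?_)
  simp only [RCLike.inner_apply]
  ring

theorem xib : XibStmt := by
  intro V hV f g hf hg j
  refine ⟨⟨(pj (fun j x => V x j) hV j (tf hf)).smooth, (pj (fun j x => V x j) hV j (tf hf)).cpt⟩,
    ?_⟩
  have h := pj_symm (fun j x => V x j) hV j (tf hf) (tf hg)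
  rw [inner_tf, inner_tf] at h
  exact h.symm

theorem ccc' : CccStmt := by
  intro V hV f g hf hg i j
  have h := pj_pair (fun j x => V x j) hV i j (tf hf) (tf hg)
  rw [← inner_sub_right, inner_tf, inner_tf, inner_tf] at h
  refine h.trans ?_
  congr 1
  refine integral_congr_ae (Filter.Eventually.of_forall fun x => ?_)
  simp only [NT.fn_sub, ml_fn]
  have e1 : (tf hf).fn x = f x := rfl
  have e2 : (tf hg).fn x = g x := rfl
  have e3 : ∀ a b : Fin 3, dmul (fun x => V x a) b x = pd b (fun z => V z a) x := fun a b => rfl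
  rw [e1, e2, e3, e3]
  push_cast
  ring

theorem ccc (_ : XibStmt) : CccStmt := ccc'

end Pool.Agent.MBX.H19
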