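import Pool.Agent.Helper27_MBX.SCL
import Pool.Agent.Helper10_MBX.SDY
import Pool.Agent.Helper19_MBX.SDX
import Pool.Agent.Helper64_MBX.SNF
import Pool.Agent.Helper52_MBX.NFC
import Pool.Agent.Helper28_MBX.NFI
import Pool.Agent.Helper65_MBX.FUB
import Pool.Agent.Helper56_MBX.STE
import Pool.Agent.Helper19_MBX.XIB
import Pool.Agent.Helper90_MBX.CCC
import Pool.Agent.Helper60_MBX.PAU
import Pool.Agent.Helper70_MBX.SYD
import Pool.Agent.Helper48_MBX.COM
import Pool.Agent.Helper39_MBX.OSC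
import Pool.Agent.Helper81_MBX.CRL
import Pool.Agent.Helper81_MBX.HEL
import Pool.Agent.Helper49_MBX.CNT
import Pool.Agent.Helper81_MBX.MG1
import Pool.Agent.Helper41_MBX.MAG
import Pool.Agent.Helper87_MBX.RP1
import Pool.Agent.Helper32_MBX.RP2
import Pool.Agent.Helper16_MBX.REP
import Pool.Agent.Helper32_MBX.DOY
import Pool.Agent.Helper41_MBX.VI1
import Pool.Agent.Helper23_MBX.THE
import Pool.Agent.Helper40_MBX.VIR
import Pool.Agent.Helper98_MBX.HAR
import Pool.Agent.Helper91_MBX.MOM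
import Pool.Agent.Helper68_MBX.AMG
import Pool.Agent.Helper6_MBX.LOW
import Pool.Agent.Helper19_MBX.UPP
import Pool.Agent.Helper95_MBX.FIN
import Pool.Agent.Helper94_MBX.COR

/-!
# MBX (MP_8cfbae_mp): assembly of the rows
-/

set_option autoImplicit false

namespace Pool.Agent.MBX.H19

open Pool.Agent.MBX

theorem sdx0 : SdxStmt := sdx H10.sdy
theorem ccc0 : CccStmt := H90.ccc xib
theorem com0 : ComStmt := H48.com xib ccc0
theorem osc0 : OscStmt := H39.osc xib
theorem mg10 : Mg1Stmt := H81.mg1 H81.crl com0 osc0 H49.cnt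
theorem mag0 : MagStmt := H41.mag mg10 H49.cnt
theorem fub0 : FubStmt := H65.fub H28.nfi
theorem ste0 : SteStmt := H56.ste H10.sdy H64.snf H52.nfc H28.nfi
theorem doy0 : DoyStmt := H32.doy H27.scl H10.sdy sdx0
theorem vi10 : Vi1Stmt := H41.vi1 H27.scl H10.sdy sdx0 H64.snf H52.nfc H28.nfi fub0 ste0
  (H70.syd xib) H81.crl doy0
theorem the0 : TheStmt := H23.the H81.hel
theorem vir0 : VirStmt := H40.vir H64.snf H52.nfc H28.nfi fub0 (H60.pau xib ccc0) H81.crl H81.hel
  doy0 vi10 the0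
theorem har0 : HarStmt := H98.har H27.scl H10.sdy H64.snf H52.nfc H28.nfi ste0
theorem mom0 : MomStmt := H91.mom H27.scl H10.sdy H64.snf H52.nfc H28.nfi ste0
theorem low0 : LowStmt := H6.low H64.snf H52.nfc H28.nfi fub0 H49.cnt mag0 doy0 the0 vir0 har0
  mom0 H68.amg
theorem upp0 : UppStmt := upp H49.cnt
theorem rep0 : RepStmt := H16.rep H10.sdy H64.snf H28.nfi H87.rp1 H32.rp2
theorem fin0 : FinStmt := H95.fin rep0 low0 upp0
theorem cor0 : CorStmt := H94.cor fin0

end Pool.Agent.MBX.H19
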